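import Pool.Agent.Lib_helper98.RC.T2

/-!
# The Feynman representation with exponent six
-/

set_option autoImplicit false

open scoped BigOperators ComplexOrder Kronecker MatrixOrder Topology
open MeasureTheory Set Matrix Filter

namespace Pool.Agent.Lib_helper64.G56

open Pool.Agent.RC Pool.Agent.RC.KER Pool.Agent.RC.T2B

/-- `∑_(k+l=4) x^k y^l / ((x+r)^(k+1) (y+r)^(l+1))` -/
noncomputable def S6 (x y r : ℝ) : ℝ :=
  ∑ k ∈ Finset.range 5, x ^ k * y ^ (4 - k) / ((x + r) ^ (k + 1) * (y + r) ^ (5 - k))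

theorem S6_eq (x y r : ℝ) : S6 x y r =
    y ^ 4 / ((x + r) * (y + r) ^ 5) + x * y ^ 3 / ((x + r) ^ 2 * (y + r) ^ 4) +
      x ^ 2 * y ^ 2 / ((x + r) ^ 3 * (y + r) ^ 3) + x ^ 3 * y / ((x + r) ^ 4 * (y + r) ^ 2) +
      x ^ 4 / ((x + r) ^ 5 * (y + r)) := by
  unfold S6
  simp [Finset.sum_range_succ]

theorem S6_int {x y r : ℝ} (hx : 0 < x) (hy : 0 < y) (hr : 0 < r) :
    S6 x y r =
      ∫ t in (0 : ℝ)..1, 5 * (t * x + (1 - t) * y) ^ 4 * ((t * x + (1 - t) * y + r) ^ 6)⁻¹ := by
  rcases eq_or_ne x y with rfl | hxy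
  · have e : ∀ t : ℝ, t * x + (1 - t) * x = x := fun t => by ring
    simp only [e, intervalIntegral.integral_const, sub_zero, smul_eq_mul, one_mul]
    rw [S6_eq]
    have hX : x + r ≠ 0 := by positivity
    field_simp
    ring
  · have hd : x - y ≠ 0 := sub_ne_zero.2 hxy
    have hu : uIcc (0 : ℝ) 1 = Icc 0 1 := uIcc_of_le zero_le_one
    have hcont : ContinuousOn (fun t : ℝ => 5 * (t * x + (1 - t) * y) ^ 4 *
        ((t * x + (1 - t) * y + r) ^ 6)⁻¹) (Icc 0 1) := by
      refine ContinuousOn.mul (by fun_prop) (ContinuousOn.inv₀ (by fun_prop) fun t ht => ?_)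
      have := comb_pos hx hy ht
      positivity
    have hder : ∀ t ∈ Icc (0 : ℝ) 1, HasDerivAt (fun t : ℝ =>
        ((t * x + (1 - t) * y) / (t * x + (1 - t) * y + r)) ^ 5 / (r * (x - y)))
        (5 * (t * x + (1 - t) * y) ^ 4 * ((t * x + (1 - t) * y + r) ^ 6)⁻¹) t := by
      intro t ht
      have hz := comb_pos hx hy ht
      have h1 : HasDerivAt (fun t : ℝ => t * x) x t := by
        simpa using (hasDerivAt_id t).mul_const x
      have h3 : HasDerivAt (fun t : ℝ => (1 - t) * y) (-y) t := by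
        simpa using ((hasDerivAt_const t (1 : ℝ)).sub (hasDerivAt_id t)).mul_const y
      have h2 : HasDerivAt (fun t : ℝ => t * x + (1 - t) * y) (x + -y) t := h1.add h3
      have h4 : HasDerivAt (fun t : ℝ => t * x + (1 - t) * y + r) (x + -y) t := h2.add_const r
      have hzr : t * x + (1 - t) * y + r ≠ 0 := by positivity
      have h5 := ((h2.div h4 hzr).pow 5).div_const (r * (x - y))
      refine HasDerivAt.congr_deriv h5 ?_
      have hr0 : r ≠ 0 := hr.ne'
      simp only [Pi.div_apply]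
      push_cast
      field_simp
      ring
    rw [intervalIntegral.integral_eq_sub_of_hasDerivAt
      (fun t ht => hder t (hu ▸ ht)) ((hu ▸ hcont).intervalIntegrable)]
    have hX : x + r ≠ 0 := by positivity
    have hY : y + r ≠ 0 := by positivity
    have hr0 : r ≠ 0 := hr.ne'
    rw [S6_eq]
    simp only [one_mul, sub_self, zero_mul, add_zero, zero_add, sub_zero]
    field_simp
    ring

theorem S6_nonneg {x y r : ℝ} (hx : 0 < x) (hy : 0 < y) (hr : 0 < r) : 0 ≤ S6 x y r := by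
  rw [S6_eq]
  positivity

theorem S6_le {x y r : ℝ} (hx : 0 < x) (hy : 0 < y) (hr : 0 < r) :
    S6 x y r ≤ 5 * (max x y) ^ 4 * ((min x y + r) ^ 6)⁻¹ := by
  have hm : 0 < min x y := lt_min hx hy
  rw [S6_int hx hy hr]
  have hu : uIcc (0 : ℝ) 1 = Icc 0 1 := uIcc_of_le zero_le_one
  have hcont : ContinuousOn (fun t : ℝ => 5 * (t * x + (1 - t) * y) ^ 4 *
      ((t * x + (1 - t) * y + r) ^ 6)⁻¹) (Icc 0 1) := by
    refine ContinuousOn.mul (by fun_prop) (ContinuousOn.inv₀ (by fun_prop) fun t ht => ?_)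
    have := comb_pos hx hy ht
    positivity
  calc (∫ t in (0 : ℝ)..1, 5 * (t * x + (1 - t) * y) ^ 4 * ((t * x + (1 - t) * y + r) ^ 6)⁻¹)
      ≤ ∫ t in (0 : ℝ)..1, 5 * (max x y) ^ 4 * ((min x y + r) ^ 6)⁻¹ := by
        apply intervalIntegral.integral_mono_on zero_le_one ((hu ▸ hcont).intervalIntegrable)
          (by simp)
        intro t ht
        have hz := comb_pos hx hy ht
        have e1 := mul_le_mul_of_nonneg_left (min_le_left x y) ht.1
        have e2 := mul_le_mul_of_nonneg_left (min_le_right x y) (by linarith [ht.2] : 0 ≤ 1 - t)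
        have e3 := mul_le_mul_of_nonneg_left (le_max_left x y) ht.1
        have e4 := mul_le_mul_of_nonneg_left (le_max_right x y) (by linarith [ht.2] : 0 ≤ 1 - t)
        have l1 : min x y ≤ t * x + (1 - t) * y := by linarith
        have l2 : t * x + (1 - t) * y ≤ max x y := by linarith
        apply mul_le_mul
        · gcongr
        · apply inv_anti₀ (by positivity)
          gcongr
        · positivity
        · positivity
    _ = _ := by simp

theorem S6_continuousOn {x y : ℝ} (hx : 0 < x) (hy : 0 < y) :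
    ContinuousOn (fun r => S6 x y r) (Ioi 0) := by
  unfold S6
  refine continuousOn_finsetSum _ fun k _ => ContinuousOn.div (by fun_prop) (by fun_prop) ?_
  intro r hr
  have : (0 : ℝ) < r := hr
  positivity

theorem S6_integrable {p x y : ℝ} (h0 : 0 < p) (h6 : p < 6) (hx : 0 < x) (hy : 0 < y) :
    IntegrableOn (fun r => r ^ (p - 1) * S6 x y r) (Ioi 0) := by
  have hm : 0 < min x y := lt_min hx hy
  have h1 := (integrableOn_scalar p (min x y) 6 h0 (by exact_mod_cast h6) hm).const_mul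
    (5 * (max x y) ^ 4)
  refine Integrable.mono' h1 ?_ ?_
  · apply ContinuousOn.aestronglyMeasurable _ measurableSet_Ioi
    exact (ContinuousOn.rpow_const continuousOn_id (fun r hr => Or.inl (ne_of_gt hr))).mul
      (S6_continuousOn hx hy)
  · refine ae_restrict_of_forall_mem measurableSet_Ioi fun r hr => ?_
    have hr0 : (0 : ℝ) < r := hr
    rw [Real.norm_of_nonneg (mul_nonneg (by positivity) (S6_nonneg hx hy hr0))]
    calc r ^ (p - 1) * S6 x y r
        ≤ r ^ (p - 1) * (5 * (max x y) ^ 4 * ((min x y + r) ^ 6)⁻¹) :=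
          mul_le_mul_of_nonneg_left (S6_le hx hy hr0) (by positivity)
      _ = _ := by ring

theorem S6_value {p x y : ℝ} (h0 : 0 < p) (h6 : p < 6) (hx : 0 < x) (hy : 0 < y) :
    ∫ r in Ioi (0 : ℝ), r ^ (p - 1) * S6 x y r = 5 * bet p 6 * hk p x y := by
  have hm : 0 < min x y := lt_min hx hy
  set F : ℝ → ℝ → ℝ := fun r t => r ^ (p - 1) * (5 * (t * x + (1 - t) * y) ^ 4 *
    ((t * x + (1 - t) * y + r) ^ 6)⁻¹) with hF
  have hpos : ∀ t ∈ Ioc (0 : ℝ) 1, 0 < t * x + (1 - t) * y := fun t ht =>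
    comb_pos hx hy ⟨ht.1.le, ht.2⟩
  have hlow : ∀ t ∈ Ioc (0 : ℝ) 1, min x y ≤ t * x + (1 - t) * y := fun t ht => by
    have e1 := mul_le_mul_of_nonneg_left (min_le_left x y) ht.1.le
    have e2 := mul_le_mul_of_nonneg_left (min_le_right x y) (by linarith [ht.2] : 0 ≤ 1 - t)
    linarith
  have hupp : ∀ t ∈ Ioc (0 : ℝ) 1, t * x + (1 - t) * y ≤ max x y := fun t ht => by
    have e1 := mul_le_mul_of_nonneg_left (le_max_left x y) ht.1.le
    have e2 := mul_le_mul_of_nonneg_left (le_max_right x y) (by linarith [ht.2] : 0 ≤ 1 - t)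
    linarith
  have hint : Integrable (Function.uncurry F)
      ((volume.restrict (Ioi (0 : ℝ))).prod (volume.restrict (Ioc (0 : ℝ) 1))) := by
    have h1 := (integrableOn_scalar p (min x y) 6 h0 (by exact_mod_cast h6) hm).const_mul
      (5 * (max x y) ^ 4)
    have h2 : Integrable (fun q : ℝ × ℝ => 5 * (max x y) ^ 4 *
        (q.1 ^ (p - 1) * ((min x y + q.1) ^ 6)⁻¹))
        ((volume.restrict (Ioi (0 : ℝ))).prod (volume.restrict (Ioc (0 : ℝ) 1))) :=
      Integrable.comp_fst h1 _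
    refine Integrable.mono' h2 ?_ ?_
    · apply Measurable.aestronglyMeasurable
      simp only [hF, Function.uncurry_def]
      fun_prop
    · have a1 : ∀ᵐ q ∂((volume.restrict (Ioi (0 : ℝ))).prod (volume.restrict (Ioc (0 : ℝ) 1))),
          q.1 ∈ Ioi (0 : ℝ) :=
        Measure.quasiMeasurePreserving_fst.ae (ae_restrict_mem measurableSet_Ioi)
      have a2 : ∀ᵐ q ∂((volume.restrict (Ioi (0 : ℝ))).prod (volume.restrict (Ioc (0 : ℝ) 1))),
          q.2 ∈ Ioc (0 : ℝ) 1 :=
        Measure.quasiMeasurePreserving_snd.ae (ae_restrict_mem measurableSet_Ioc)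
      filter_upwards [a1, a2] with q hq1 hq2
      have hr0 : (0 : ℝ) < q.1 := hq1
      have hl := hpos q.2 hq2
      have hl1 := hlow q.2 hq2
      have hl2 := hupp q.2 hq2
      simp only [hF, Function.uncurry_def]
      rw [Real.norm_of_nonneg (by positivity)]
      calc q.1 ^ (p - 1) * (5 * (q.2 * x + (1 - q.2) * y) ^ 4 *
            ((q.2 * x + (1 - q.2) * y + q.1) ^ 6)⁻¹)
          ≤ q.1 ^ (p - 1) * (5 * (max x y) ^ 4 * ((min x y + q.1) ^ 6)⁻¹) := by
            apply mul_le_mul_of_nonneg_left _ (by positivity)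
            apply mul_le_mul
            · gcongr
            · apply inv_anti₀ (by positivity)
              gcongr
            · positivity
            · positivity
        _ = _ := by ring
  have hL : ∫ r in Ioi (0 : ℝ), r ^ (p - 1) * S6 x y r =
      ∫ r in Ioi (0 : ℝ), ∫ t in Ioc (0 : ℝ) 1, F r t := by
    apply setIntegral_congr_fun measurableSet_Ioi
    intro r hr
    have hr0 : (0 : ℝ) < r := hr
    simp only [hF]
    rw [S6_int hx hy hr0, intervalIntegral.integral_of_le zero_le_one, ← integral_const_mul]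
  rw [hL, integral_integral_swap hint]
  have hR : ∀ t ∈ Ioc (0 : ℝ) 1, ∫ r in Ioi (0 : ℝ), F r t =
      5 * bet p 6 * (t * x + (1 - t) * y) ^ (p - 2) := by
    intro t ht
    have hl := hpos t ht
    have e : (fun r => F r t) = fun r => 5 * (t * x + (1 - t) * y) ^ 4 *
        (r ^ (p - 1) * ((t * x + (1 - t) * y + r) ^ 6)⁻¹) := by
      funext r; simp only [hF]; ring
    rw [e, integral_const_mul, bet_scale p _ 6 hl]
    have e2 : (t * x + (1 - t) * y) ^ (p - 2) =
        (t * x + (1 - t) * y) ^ 4 * (t * x + (1 - t) * y) ^ (p - ((6 : ℕ) : ℝ)) := by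
      rw [← Real.rpow_natCast (t * x + (1 - t) * y) 4, ← Real.rpow_add hl]
      congr 1
      push_cast
      ring
    rw [e2]
    ring
  rw [setIntegral_congr_fun measurableSet_Ioc hR, integral_const_mul, hk,
    intervalIntegral.integral_of_le zero_le_one]

theorem feyn6 {p x y : ℝ} (hx : 0 < x) (hy : 0 < y) (h0 : 0 < p) (h6 : p < 6) :
    IntegrableOn (fun r : ℝ => r ^ (p - 1) * ∑ k ∈ Finset.range 5,
      x ^ k * y ^ (4 - k) / ((x + r) ^ (k + 1) * (y + r) ^ (5 - k))) (Ioi 0) ∧
    ∫ r in Ioi (0 : ℝ), r ^ (p - 1) * ∑ k ∈ Finset.range 5,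
      x ^ k * y ^ (4 - k) / ((x + r) ^ (k + 1) * (y + r) ^ (5 - k)) = 5 * bet p 6 * hk p x y :=
  ⟨S6_integrable h0 h6 hx hy, S6_value h0 h6 hx hy⟩

end Pool.Agent.Lib_helper64.G56
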