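import Pool.Agent.Lib_helper64.G56.Beta

/-!
# The fourth difference of the model function
-/

set_option autoImplicit false

open scoped BigOperators Topology
open MeasureTheory Set Filter

namespace Pool.Agent.Lib_helper64.G56

open Pool.Agent.RC

/-- the model function `(1 - s)_+^p T (s / (1 - s))`, `T` a cubic -/
noncomputable def gm (p t0 t1 t2 t3 s : ℝ) : ℝ :=
  t0 * (max (1 - s) 0) ^ p + t1 * s * (max (1 - s) 0) ^ (p - 1) +
    t2 * s ^ 2 * (max (1 - s) 0) ^ (p - 2) + t3 * s ^ 3 * (max (1 - s) 0) ^ (p - 3)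

theorem gm_eq {p : ℝ} (h5 : 5 < p) (t0 t1 t2 t3 s : ℝ) : gm p t0 t1 t2 t3 s =
    (t0 - t1 + t2 - t3) * gi p 0 s + (t1 - 2 * t2 + 3 * t3) * gi p 1 s +
      (t2 - 3 * t3) * gi p 2 s + t3 * gi p 3 s := by
  unfold gm gi
  push_cast
  rcases le_or_gt s 1 with hs | hs
  · rcases hs.lt_or_eq with hs | rfl
    · rw [max_eq_left (by linarith)]
      have hx : 0 < 1 - s := by linarith
      set x := 1 - s with hxd
      have hs' : s = 1 - x := by rw [hxd]; ring
      have e1 : x ^ (p - 1) = x ^ (p - 3) * x ^ 2 := by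
        rw [← Real.rpow_natCast x 2, ← Real.rpow_add hx]; congr 1; push_cast; ring
      have e2 : x ^ (p - 2) = x ^ (p - 3) * x := by
        rw [← Real.rpow_add_one hx.ne']; congr 1; ring
      have e0 : x ^ p = x ^ (p - 3) * x ^ 3 := by
        rw [← Real.rpow_natCast x 3, ← Real.rpow_add hx]; congr 1; push_cast; ring
      have e0' : x ^ (p - 0) = x ^ (p - 3) * x ^ 3 := by rw [sub_zero]; exact e0
      rw [e1, e2, e0, e0', hs']
      ring
    · have z : max (1 - 1 : ℝ) 0 = 0 := by simp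
      rw [z, Real.zero_rpow (by linarith), Real.zero_rpow (by linarith),
        Real.zero_rpow (by linarith), Real.zero_rpow (by linarith), Real.zero_rpow (by linarith)]
      ring
  · have z : max (1 - s) 0 = 0 := max_eq_right (by linarith)
    rw [z, Real.zero_rpow (by linarith), Real.zero_rpow (by linarith),
      Real.zero_rpow (by linarith), Real.zero_rpow (by linarith), Real.zero_rpow (by linarith)]
    ring

theorem gm_continuous {p : ℝ} (h5 : 5 < p) (t0 t1 t2 t3 : ℝ) :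
    Continuous (gm p t0 t1 t2 t3) := by
  unfold gm
  have h : ∀ i : ℝ, i ≤ 3 → Continuous (fun s : ℝ => (max (1 - s) 0) ^ (p - i)) := by
    intro i hi
    apply Continuous.rpow_const (by fun_prop)
    intro s
    exact Or.inr (by linarith)
  have h0 : Continuous (fun s : ℝ => (max (1 - s) 0) ^ p) := by
    have := h 0 (by norm_num)
    simpa using this
  exact (((continuous_const.mul h0).add ((continuous_const.mul continuous_id).mul
    (h 1 (by norm_num)))).add ((continuous_const.mul (continuous_id.pow 2)).mul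
      (h 2 (by norm_num)))).add ((continuous_const.mul (continuous_id.pow 3)).mul
      (h 3 (by norm_num)))

theorem gm_zero {p : ℝ} (h5 : 5 < p) (t0 t1 t2 t3 : ℝ) {s : ℝ} (hs : 1 ≤ s) :
    gm p t0 t1 t2 t3 s = 0 := by
  unfold gm
  have z : max (1 - s) 0 = 0 := max_eq_right (by linarith)
  rw [z, Real.zero_rpow (by linarith), Real.zero_rpow (by linarith),
      Real.zero_rpow (by linarith), Real.zero_rpow (by linarith)]
  ring

theorem gm_int {p : ℝ} (h5 : 5 < p) (h6 : p < 6) (t0 t1 t2 t3 : ℝ) {y : ℝ} (hy : -1 < y) :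
    IntegrableOn (fun s : ℝ => s ^ (5 - p) * gm p t0 t1 t2 t3 (s - y)) (Ioi 0) ∧
      ∫ s in Ioi (0 : ℝ), s ^ (5 - p) * gm p t0 t1 t2 t3 (s - y) =
        (t0 - t1 + t2 - t3) * ((1 + y) ^ 6 * bb p 0) +
        (t1 - 2 * t2 + 3 * t3) * ((1 + y) ^ 5 * bb p 1) +
        (t2 - 3 * t3) * ((1 + y) ^ 4 * bb p 2) + t3 * ((1 + y) ^ 3 * bb p 3) := by
  obtain ⟨i0, v0⟩ := gi_int h5 h6 (i := 0) (by norm_num) hy
  obtain ⟨i1, v1⟩ := gi_int h5 h6 (i := 1) (by norm_num) hy
  obtain ⟨i2, v2⟩ := gi_int h5 h6 (i := 2) (by norm_num) hy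
  obtain ⟨i3, v3⟩ := gi_int h5 h6 (i := 3) (by norm_num) hy
  have e : (fun s : ℝ => s ^ (5 - p) * gm p t0 t1 t2 t3 (s - y)) = fun s =>
      (t0 - t1 + t2 - t3) * (s ^ (5 - p) * gi p 0 (s - y)) +
      (t1 - 2 * t2 + 3 * t3) * (s ^ (5 - p) * gi p 1 (s - y)) +
      (t2 - 3 * t3) * (s ^ (5 - p) * gi p 2 (s - y)) + t3 * (s ^ (5 - p) * gi p 3 (s - y)) := by
    funext s
    rw [gm_eq h5]
    ring
  have j0 := i0.const_mul (t0 - t1 + t2 - t3)
  have j1 := i1.const_mul (t1 - 2 * t2 + 3 * t3)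
  have j2 := i2.const_mul (t2 - 3 * t3)
  have j3 := i3.const_mul t3
  refine ⟨?_, ?_⟩
  · rw [e]
    exact ((j0.add j1).add j2).add j3
  · rw [e]
    have a1 := integral_add ((j0.add j1).add j2) j3
    have a2 := integral_add (j0.add j1) j2
    have a3 := integral_add j0 j1
    simp only [Pi.add_apply] at a1 a2 a3
    rw [a1, a2, a3, integral_const_mul, integral_const_mul, integral_const_mul,
      integral_const_mul, v0, v1, v2, v3]

/-- the fourth difference of the model function -/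
theorem gside {p : ℝ} (h5 : 5 < p) (h6 : p < 6) (t0 t1 t2 t3 : ℝ) {h : ℝ} (h0 : 0 < h)
    (h1 : h < 1 / 2) :
    (∫ s in Ioi (0 : ℝ), s ^ (5 - p) *
        (gm p t0 t1 t2 t3 (s - 2 * h) + gm p t0 t1 t2 t3 (s + 2 * h))) -
      4 * (∫ s in Ioi (0 : ℝ), s ^ (5 - p) *
        (gm p t0 t1 t2 t3 (s - h) + gm p t0 t1 t2 t3 (s + h))) +
      3 * (∫ s in Ioi (0 : ℝ), s ^ (5 - p) * (gm p t0 t1 t2 t3 s + gm p t0 t1 t2 t3 s)) =
    360 * h ^ 4 * bb p 0 * (t0 - (p - 2) / p * t1 + (p - 2) * (p - 3) / (p * (p - 1)) * t2 -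
        (p - 3) * (p - 4) / (p * (p - 1)) * t3) +
      120 * h ^ 6 * bb p 0 * (t0 - t1 + t2 - t3) := by
  have key : ∀ y : ℝ, |y| < 1 → ∫ s in Ioi (0 : ℝ), s ^ (5 - p) *
      (gm p t0 t1 t2 t3 (s - y) + gm p t0 t1 t2 t3 (s + y)) =
      (t0 - t1 + t2 - t3) * (((1 + y) ^ 6 + (1 - y) ^ 6) * bb p 0) +
        (t1 - 2 * t2 + 3 * t3) * (((1 + y) ^ 5 + (1 - y) ^ 5) * bb p 1) +
        (t2 - 3 * t3) * (((1 + y) ^ 4 + (1 - y) ^ 4) * bb p 2) +
        t3 * (((1 + y) ^ 3 + (1 - y) ^ 3) * bb p 3) := by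
    intro y hy
    obtain ⟨hy1, hy2⟩ := abs_lt.1 hy
    obtain ⟨i1, v1⟩ := gm_int h5 h6 t0 t1 t2 t3 hy1
    obtain ⟨i2, v2⟩ := gm_int h5 h6 t0 t1 t2 t3 (y := -y) (by linarith)
    have e : (fun s : ℝ => s ^ (5 - p) * (gm p t0 t1 t2 t3 (s - y) + gm p t0 t1 t2 t3 (s + y)))
        = fun s => s ^ (5 - p) * gm p t0 t1 t2 t3 (s - y) +
          s ^ (5 - p) * gm p t0 t1 t2 t3 (s - -y) := by
      funext s
      rw [sub_neg_eq_add]
      ring
    rw [e, integral_add i1 i2, v1, v2]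
    ring
  have r1 := bb_rec h5 h6 (i := 0) (by norm_num)
  have r2 := bb_rec h5 h6 (i := 1) (by norm_num)
  norm_num at r1 r2
  have hp : p ≠ 0 := by linarith
  have hp1 : p - 1 ≠ 0 := by intro h; linarith
  have b1 : bb p 1 = 6 / p * bb p 0 := by field_simp; linarith
  have b2 : bb p 2 = 30 / (p * (p - 1)) * bb p 0 := by
    have : bb p 2 = bb p 1 * 5 / (p - 1) := by field_simp; linarith
    rw [this, b1]; field_simp; ring
  have k0 := key 0 (by simp)
  have k1 := key h (by rw [abs_of_pos h0]; linarith)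
  have k2 := key (2 * h) (by rw [abs_of_pos (by linarith)]; linarith)
  simp only [sub_zero, add_zero] at k0
  rw [k0, k1, k2, b1, b2]
  field_simp
  ring

end Pool.Agent.Lib_helper64.G56
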