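import Pool.Agent.Lib_helper90.MOD.Lay
import Pool.Agent.Lib_helper29.MOD.Asm

/-!
# The Beta side of the translation argument
-/

set_option autoImplicit false

open scoped BigOperators ComplexOrder Kronecker MatrixOrder Topology
open MeasureTheory Set Matrix Filter

namespace Pool.Agent.Lib_helper64.G56

open Pool.Agent.RC

noncomputable def gi (p : ℝ) (i : ℕ) (s : ℝ) : ℝ := (max (1 - s) 0) ^ (p - i)

noncomputable def bb (p : ℝ) (i : ℕ) : ℝ := ∫ x in (0 : ℝ)..1, x ^ (5 - p) * (1 - x) ^ (p - i)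

theorem bb_ii {p : ℝ} (h5 : 5 < p) (h6 : p < 6) {i : ℕ} (hi : i ≤ 3) :
    IntervalIntegrable (fun x : ℝ => x ^ (5 - p) * (1 - x) ^ (p - i)) volume 0 1 := by
  have hi' : (i : ℝ) ≤ 3 := by exact_mod_cast hi
  apply IntervalIntegrable.mul_continuousOn
  · exact intervalIntegral.intervalIntegrable_rpow' (by linarith)
  · apply ContinuousOn.rpow_const (by fun_prop)
    intro x _
    exact Or.inr (by linarith)

theorem gi_one {p : ℝ} (h5 : 5 < p) (h6 : p < 6) {i : ℕ} (hi : i ≤ 3) :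
    IntegrableOn (fun x : ℝ => x ^ (5 - p) * gi p i x) (Ioi 0) ∧
      ∫ x in Ioi (0 : ℝ), x ^ (5 - p) * gi p i x = bb p i := by
  have hi' : (i : ℝ) ≤ 3 := by exact_mod_cast hi
  have hpi : 0 < p - i := by linarith
  have h1 : IntegrableOn (fun x : ℝ => x ^ (5 - p) * (1 - x) ^ (p - i)) (Ioc 0 1) := by
    have := bb_ii h5 h6 hi
    rwa [intervalIntegrable_iff_integrableOn_Ioc_of_le zero_le_one] at this
  have e1 : Set.EqOn (fun x : ℝ => x ^ (5 - p) * (1 - x) ^ (p - i))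
      (fun x : ℝ => x ^ (5 - p) * gi p i x) (Ioc 0 1) := by
    intro x hx
    simp only [gi]
    rw [max_eq_left (by linarith [hx.2])]
  have h1' : IntegrableOn (fun x : ℝ => x ^ (5 - p) * gi p i x) (Ioc 0 1) :=
    h1.congr_fun e1 measurableSet_Ioc
  have e2 : Set.EqOn (fun _ : ℝ => (0 : ℝ)) (fun x : ℝ => x ^ (5 - p) * gi p i x) (Ioi 1) := by
    intro x hx
    have hx1 : (1 : ℝ) < x := hx
    simp only [gi]
    rw [max_eq_right (by linarith), Real.zero_rpow hpi.ne', mul_zero]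
  have h2' : IntegrableOn (fun x : ℝ => x ^ (5 - p) * gi p i x) (Ioi 1) :=
    IntegrableOn.congr_fun integrableOn_zero e2 measurableSet_Ioi
  have hu : Ioc (0 : ℝ) 1 ∪ Ioi 1 = Ioi 0 := Ioc_union_Ioi_eq_Ioi zero_le_one
  refine ⟨hu ▸ h1'.union h2', ?_⟩
  rw [← hu, setIntegral_union (Ioc_disjoint_Ioi le_rfl) measurableSet_Ioi h1' h2',
    ← setIntegral_congr_fun measurableSet_Ioc e1, ← setIntegral_congr_fun measurableSet_Ioi e2, bb,
    intervalIntegral.integral_of_le zero_le_one]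
  simp

theorem gi_int {p : ℝ} (h5 : 5 < p) (h6 : p < 6) {i : ℕ} (hi : i ≤ 3) {y : ℝ} (hy : -1 < y) :
    IntegrableOn (fun s : ℝ => s ^ (5 - p) * gi p i (s - y)) (Ioi 0) ∧
      ∫ s in Ioi (0 : ℝ), s ^ (5 - p) * gi p i (s - y) = (1 + y) ^ (6 - i) * bb p i := by
  have hi' : (i : ℝ) ≤ 3 := by exact_mod_cast hi
  have hc : 0 < 1 + y := by linarith
  obtain ⟨g1, g2⟩ := gi_one h5 h6 hi
  have key : ∀ x ∈ Ioi (0 : ℝ), ((1 + y) * x) ^ (5 - p) * gi p i ((1 + y) * x - y)
      = (1 + y) ^ (5 - (i : ℝ)) * (x ^ (5 - p) * gi p i x) := by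
    intro x hx
    have hx0 : (0 : ℝ) < x := hx
    simp only [gi]
    have e : 1 - ((1 + y) * x - y) = (1 + y) * (1 - x) := by ring
    rw [e, show max ((1 + y) * (1 - x)) 0 = (1 + y) * max (1 - x) 0 by
      rw [mul_max_of_nonneg _ _ hc.le, mul_zero], Real.mul_rpow hc.le hx0.le,
      Real.mul_rpow hc.le (le_max_right _ _)]
    have e2 : (1 + y) ^ (5 - (i : ℝ)) = (1 + y) ^ (5 - p) * (1 + y) ^ (p - i) := by
      rw [← Real.rpow_add hc]; congr 1; ring
    rw [e2]; ring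
  constructor
  · have hh := integrableOn_Ioi_comp_mul_left_iff
      (fun s : ℝ => s ^ (5 - p) * gi p i (s - y)) 0 hc
    rw [mul_zero] at hh
    rw [← hh]
    exact IntegrableOn.congr_fun (g1.const_mul ((1 + y) ^ (5 - (i : ℝ))))
      (fun x hx => (key x hx).symm) measurableSet_Ioi
  · have h := integral_comp_mul_left_Ioi (fun s : ℝ => s ^ (5 - p) * gi p i (s - y)) 0 hc
    rw [mul_zero, setIntegral_congr_fun measurableSet_Ioi key, integral_const_mul, g2,
      smul_eq_mul] at h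
    have h' : ∫ s in Ioi (0 : ℝ), s ^ (5 - p) * gi p i (s - y)
        = (1 + y) * ((1 + y) ^ (5 - (i : ℝ)) * bb p i) := by
      rw [h]; field_simp
    rw [h', ← mul_assoc]
    congr 1
    have e3 : (1 + y) ^ (6 - i) = (1 + y) ^ (6 - (i : ℝ)) := by
      rw [← Real.rpow_natCast]
      congr 1
      rw [Nat.cast_sub (by omega)]
      norm_num
    rw [e3, show 6 - (i : ℝ) = (5 - (i : ℝ)) + 1 by ring, Real.rpow_add_one hc.ne']
    ring

theorem bb_rec {p : ℝ} (h5 : 5 < p) (h6 : p < 6) {i : ℕ} (hi : i ≤ 2) :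
    bb p (i + 1) * (p - i) = bb p i * (6 - i) := by
  have hi' : (i : ℝ) ≤ 2 := by exact_mod_cast hi
  have I0 := bb_ii h5 h6 (i := i) (by omega)
  have I1 := bb_ii h5 h6 (i := i + 1) (by omega)
  -- derivative of `x^(6-p) (1-x)^(p-i)`
  have hd : ∀ x ∈ Ioo (0 : ℝ) 1, HasDerivAt (fun x : ℝ => x ^ (6 - p) * (1 - x) ^ (p - i))
      ((6 - i) * (x ^ (5 - p) * (1 - x) ^ (p - i)) -
        (p - i) * (x ^ (5 - p) * (1 - x) ^ (p - ((i + 1 : ℕ) : ℝ)))) x := by
    intro x hx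
    have hx0 : 0 < x := hx.1
    have hx1 : 0 < 1 - x := by linarith [hx.2]
    have d1 : HasDerivAt (fun x : ℝ => x ^ (6 - p)) ((6 - p) * x ^ (6 - p - 1)) x :=
      Real.hasDerivAt_rpow_const (Or.inl hx0.ne')
    have d2 : HasDerivAt (fun x : ℝ => 1 - x) (-1) x := by
      simpa using (hasDerivAt_id x).const_sub 1
    have d3 := d2.rpow_const (p := p - i) (Or.inl hx1.ne')
    have d4 := d1.mul d3
    refine d4.congr_deriv ?_
    have e1 : x ^ (6 - p) = x ^ (5 - p) * x := by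
      rw [← Real.rpow_add_one hx0.ne']; congr 1; ring
    have e2 : (1 - x) ^ (p - i) = (1 - x) ^ (p - i - 1) * (1 - x) := by
      rw [← Real.rpow_add_one hx1.ne']; congr 1; ring
    have e3 : p - ((i + 1 : ℕ) : ℝ) = p - i - 1 := by push_cast; ring
    have e4 : (6 : ℝ) - p - 1 = 5 - p := by ring
    rw [e3, e4, e1, e2]
    ring
  have hint : IntervalIntegrable (fun x : ℝ => (6 - i) * (x ^ (5 - p) * (1 - x) ^ (p - i)) -
        (p - i) * (x ^ (5 - p) * (1 - x) ^ (p - ((i + 1 : ℕ) : ℝ)))) volume 0 1 :=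
    (I0.const_mul _).sub (I1.const_mul _)
  have hcont : ContinuousOn (fun x : ℝ => x ^ (6 - p) * (1 - x) ^ (p - i)) (Icc 0 1) := by
    apply ContinuousOn.mul
    · exact ContinuousOn.rpow_const continuousOn_id (fun x _ => Or.inr (by linarith))
    · exact ContinuousOn.rpow_const (by fun_prop) (fun x _ => Or.inr (by linarith))
  have h := intervalIntegral.integral_eq_sub_of_hasDerivAt_of_le zero_le_one hcont hd hint
  rw [intervalIntegral.integral_sub (I0.const_mul _) (I1.const_mul _),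
    intervalIntegral.integral_const_mul, intervalIntegral.integral_const_mul] at h
  have z1 : (0 : ℝ) ^ (6 - p) = 0 := Real.zero_rpow (by linarith)
  have z2 : (1 - 1 : ℝ) ^ (p - (i : ℝ)) = 0 := by
    rw [sub_self]; exact Real.zero_rpow (by linarith)
  rw [z1, z2, mul_zero, zero_mul, sub_zero] at h
  unfold bb
  linarith

theorem bb_pos {p : ℝ} (h5 : 5 < p) (h6 : p < 6) {i : ℕ} (hi : i ≤ 3) : 0 < bb p i := by
  unfold bb
  apply intervalIntegral.intervalIntegral_pos_of_pos_on (bb_ii h5 h6 hi) _ zero_lt_one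
  intro x hx
  have hx0 : 0 < x := hx.1
  have hx1 : 0 < 1 - x := by linarith [hx.2]
  positivity

theorem fx_one {p s : ℝ} : LAY.fx p (1 : Matrix Unit Unit ℂ) 1 s
    = (max (1 - s) 0) ^ p + (max (-1 - s) 0) ^ p := by
  unfold LAY.fx
  have e1 : (1 : Matrix Unit Unit ℂ) - (s : ℂ) • 1 = ((1 - s : ℝ) : ℂ) • 1 := by
    push_cast
    rw [sub_smul, one_smul]
  have e2 : -(1 : Matrix Unit Unit ℂ) - (s : ℂ) • 1 = ((-1 - s : ℝ) : ℂ) • 1 := by
    push_cast
    rw [sub_smul, neg_smul, one_smul]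
  rw [e1, e2, trF_unit', trF_unit']
  rfl

theorem bb_bet {p : ℝ} (h5 : 5 < p) (h6 : p < 6) : p * bet p 6 = 6 * bb p 0 := by
  have h := (LAY.In_fx (A := (1 : Matrix Unit Unit ℂ)) (D := 1) Matrix.PosDef.one
    Matrix.isHermitian_one (p := p) (by linarith) (n := 6) (by decide)
    (by push_cast; linarith)).2
  rw [In_one] at h
  rw [h]
  push_cast
  congr 1
  rw [← (gi_one h5 h6 (i := 0) (by norm_num)).2]
  apply setIntegral_congr_fun measurableSet_Ioi
  intro s hs
  have hs0 : (0 : ℝ) < s := hs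
  simp only [gi]
  rw [fx_one, max_eq_right (show -1 - s ≤ 0 by linarith), Real.zero_rpow (by linarith), add_zero]
  congr 1
  · congr 1
    ring
  · congr 1
    simp

end Pool.Agent.Lib_helper64.G56
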